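import Mathlib
import Pool.Agent.Helper47.QH.Defs

/-!
# QH-1: John's theorem for polytopes (MP_882a21_co, captain helper47)
-/

set_option autoImplicit false

namespace Pool.Agent.Helper88.QH

open scoped BigOperators RealInnerProductSpace Topology
open Pool.Agent.Helper47.QH Filter

theorem norm_add_le_quad {E : Type*} [NormedAddCommGroup E] [InnerProductSpace ℝ E] (u w : E)
    (hu : ‖u‖ = 1) : ‖u + w‖ ≤ 1 + ⟪u, w⟫ + ‖w‖ ^ 2 / 2 := by
  have h1 : ‖u + w‖ ^ 2 = 1 + 2 * ⟪u, w⟫ + ‖w‖ ^ 2 := by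
    rw [norm_add_sq_real, hu]; ring
  have h2 : 0 ≤ ‖u + w‖ ^ 2 := sq_nonneg _
  have h3 : 0 ≤ 1 + ⟪u, w⟫ + ‖w‖ ^ 2 / 2 := by nlinarith
  refine le_of_sq_le_sq ?_ h3
  rw [h1]
  nlinarith [sq_nonneg (⟪u, w⟫ + ‖w‖ ^ 2 / 2)]

theorem det_gt_one {d : ℕ} (M : Matrix (Fin d) (Fin d) ℝ) (hM : 0 < M.trace) :
    ∀ᶠ ε in 𝓝[>] (0 : ℝ), 1 < (1 + ε • M).det := by
  obtain ⟨Q, hQ⟩ : ∃ Q : Polynomial ℝ, ∀ ε : ℝ, (1 + ε • M).det = 1 + M.trace * ε + Q.eval ε * ε ^ 2 :=
    ⟨_, fun ε => Matrix.det_one_add_smul ε M⟩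
  have hc : Continuous fun ε : ℝ => M.trace + Q.eval ε * ε := by
    have := Q.continuous
    fun_prop
  have h0 : ∀ᶠ ε in 𝓝 (0 : ℝ), 0 < M.trace + Q.eval ε * ε := by
    have : Tendsto (fun ε : ℝ => M.trace + Q.eval ε * ε) (𝓝 0) (𝓝 (M.trace + Q.eval 0 * 0)) :=
      hc.tendsto 0
    rw [mul_zero, add_zero] at this
    exact this.eventually (lt_mem_nhds hM)
  filter_upwards [nhdsWithin_le_nhds h0, self_mem_nhdsWithin] with ε h1 h2
  have h2' : 0 < ε := h2
  rw [hQ]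
  nlinarith [mul_pos h2' h1]

section
variable {d : ℕ}


/-- maximiser of the determinant. -/
theorem exists_max (hd : 0 < d) {I : Type} [Fintype I]
    (a : I → EuclideanSpace ℝ (Fin d)) (b : I → ℝ) (R : ℝ)
    (hbdd : ∀ x : EuclideanSpace ℝ (Fin d), (∀ i, ⟪a i, x⟫ ≤ b i) → ‖x‖ ≤ R)
    (x₀ : EuclideanSpace ℝ (Fin d)) (hint : ∀ i, ⟪a i, x₀⟫ < b i) :
    ∃ (o : EuclideanSpace ℝ (Fin d))
      (A : EuclideanSpace ℝ (Fin d) →L[ℝ] EuclideanSpace ℝ (Fin d)),
      (∀ i, ⟪a i, o⟫ + ‖A (a i)‖ ≤ b i) ∧ 0 < A.det ∧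
      ∀ (o' : EuclideanSpace ℝ (Fin d))
        (A' : EuclideanSpace ℝ (Fin d) →L[ℝ] EuclideanSpace ℝ (Fin d)),
        (∀ i, ⟪a i, o'⟫ + ‖A' (a i)‖ ≤ b i) → A'.det ≤ A.det := by
  set C : Set (EuclideanSpace ℝ (Fin d) × (EuclideanSpace ℝ (Fin d) →L[ℝ] EuclideanSpace ℝ (Fin d))) :=
    {p | ∀ i, ⟪a i, p.1⟫ + ‖p.2 (a i)‖ ≤ b i} with hC
  have hclosed : IsClosed C := by
    rw [hC, Set.ofPred_forall]
    refine isClosed_iInter fun i => isClosed_le ?_ continuous_const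
    have h1 : Continuous fun p : EuclideanSpace ℝ (Fin d) ×
        (EuclideanSpace ℝ (Fin d) →L[ℝ] EuclideanSpace ℝ (Fin d)) => p.2 (a i) :=
      continuous_snd.clm_apply continuous_const
    fun_prop
  have hR : 0 ≤ R := (norm_nonneg x₀).trans (hbdd x₀ fun i => (hint i).le)
  have hmem : ∀ p ∈ C, ∀ ξ : EuclideanSpace ℝ (Fin d), ‖ξ‖ ≤ 1 →
      ‖p.1 + ContinuousLinearMap.adjoint p.2 ξ‖ ≤ R := by
    intro p hp ξ hξ
    apply hbdd
    intro i
    have h1 := hp i
    rw [inner_add_right, ContinuousLinearMap.adjoint_inner_right]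
    have h2 : ⟪p.2 (a i), ξ⟫ ≤ ‖p.2 (a i)‖ * ‖ξ‖ := real_inner_le_norm _ _
    have h3 : ‖p.2 (a i)‖ * ‖ξ‖ ≤ ‖p.2 (a i)‖ := by
      nlinarith [norm_nonneg (p.2 (a i))]
    linarith
  have hb : Bornology.IsBounded C := by
    rw [isBounded_iff_forall_norm_le]
    refine ⟨2 * R, fun p hp => ?_⟩
    have h1 : ‖p.1‖ ≤ R := by
      have := hmem p hp 0 (by simp)
      simpa using this
    have h2 : ‖p.2‖ ≤ 2 * R := by
      rw [← LinearIsometryEquiv.norm_map ContinuousLinearMap.adjoint p.2]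
      refine ContinuousLinearMap.opNorm_le_of_unit_norm (by linarith) fun ξ hξ => ?_
      have h3 := hmem p hp ξ hξ.le
      have h4 : ContinuousLinearMap.adjoint p.2 ξ =
          (p.1 + ContinuousLinearMap.adjoint p.2 ξ) - p.1 := by abel
      rw [h4]
      refine (norm_sub_le _ _).trans ?_
      linarith
    rw [Prod.norm_def]
    exact max_le (by linarith) h2
  have hcomp : IsCompact C := Metric.isCompact_of_isClosed_isBounded hclosed hb
  -- starting point
  obtain ⟨ε, hε, hεi⟩ : ∃ ε : ℝ, 0 < ε ∧ ∀ i, ε * ‖a i‖ ≤ b i - ⟪a i, x₀⟫ := by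
    have h1 : ∀ᶠ ε in 𝓝[>] (0 : ℝ), ∀ i, ε * ‖a i‖ ≤ b i - ⟪a i, x₀⟫ := by
      rw [Filter.eventually_all]
      intro i
      have h2 : Tendsto (fun ε : ℝ => ε * ‖a i‖) (𝓝 0) (𝓝 (0 * ‖a i‖)) :=
        (continuous_id.mul continuous_const).tendsto 0
      rw [zero_mul] at h2
      have h3 := h2.eventually (gt_mem_nhds (sub_pos.2 (hint i)))
      filter_upwards [nhdsWithin_le_nhds h3] with ε h using le_of_lt h
    obtain ⟨ε, h2, h3⟩ := (h1.and self_mem_nhdsWithin).exists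
    exact ⟨ε, h3, h2⟩
  have hst : (x₀, ε • ContinuousLinearMap.id ℝ (EuclideanSpace ℝ (Fin d))) ∈ C := by
    intro i
    have : ‖ε • a i‖ = ε * ‖a i‖ := by
      rw [norm_smul, Real.norm_of_nonneg hε.le]
    have h := hεi i
    simp only [smul_apply, ContinuousLinearMap.id_apply]
    rw [this]
    linarith
  obtain ⟨p, hp, hmax⟩ := hcomp.exists_isMaxOn ⟨_, hst⟩
    (f := fun p => p.2.det)
    ((ContinuousLinearMap.continuous_det.comp continuous_snd).continuousOn)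
  refine ⟨p.1, p.2, hp, ?_, ?_⟩
  · have h1 : (ε • ContinuousLinearMap.id ℝ (EuclideanSpace ℝ (Fin d))).det ≤ p.2.det := hmax hst
    refine lt_of_lt_of_le ?_ h1
    have h2 : (ε • ContinuousLinearMap.id ℝ (EuclideanSpace ℝ (Fin d))).det = ε ^ d := by
      rw [ContinuousLinearMap.det]
      have : ((ε • ContinuousLinearMap.id ℝ (EuclideanSpace ℝ (Fin d)) :
          EuclideanSpace ℝ (Fin d) →L[ℝ] EuclideanSpace ℝ (Fin d)) :
          EuclideanSpace ℝ (Fin d) →ₗ[ℝ] EuclideanSpace ℝ (Fin d)) = ε • LinearMap.id := rfl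
      rw [this, LinearMap.det_smul, LinearMap.det_id, mul_one, finrank_euclideanSpace_fin]
    rw [h2]
    positivity
  · intro o' A' h
    exact hmax (show (o', A') ∈ C from h)

/-- quadratic form of a matrix. -/
theorem inner_toEuclideanLin (M : Matrix (Fin d) (Fin d) ℝ) (u : EuclideanSpace ℝ (Fin d)) :
    ⟪u, Matrix.toEuclideanLin M u⟫ = ∑ j, ∑ k, M j k * (u j * u k) := by
  rw [PiLp.inner_apply]
  refine Finset.sum_congr rfl fun j _ => ?_
  simp only [Matrix.toLpLin_apply, Matrix.mulVec, dotProduct, RCLike.inner_apply, conj_trivial]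
  rw [Finset.sum_mul]
  refine Finset.sum_congr rfl fun k _ => ?_
  ring

/-- perturbation of a maximiser. -/
theorem no_improve {I : Type} [Fintype I]
    (a : I → EuclideanSpace ℝ (Fin d)) (b : I → ℝ) (x₀ : EuclideanSpace ℝ (Fin d))
    (hint : ∀ i, ⟪a i, x₀⟫ < b i) (o : EuclideanSpace ℝ (Fin d))
    (A : EuclideanSpace ℝ (Fin d) →L[ℝ] EuclideanSpace ℝ (Fin d))
    (hA : ∀ i, ⟪a i, o⟫ + ‖A (a i)‖ ≤ b i) (hdet : 0 < A.det)
    (hmax : ∀ (o' : EuclideanSpace ℝ (Fin d))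
        (A' : EuclideanSpace ℝ (Fin d) →L[ℝ] EuclideanSpace ℝ (Fin d)),
        (∀ i, ⟪a i, o'⟫ + ‖A' (a i)‖ ≤ b i) → A'.det ≤ A.det)
    (h : EuclideanSpace ℝ (Fin d)) (M : Matrix (Fin d) (Fin d) ℝ) (hM : 0 < M.trace)
    (hact : ∀ i, ⟪a i, o⟫ + ‖A (a i)‖ = b i → 0 < ‖A (a i)‖ ∧
      ⟪‖A (a i)‖⁻¹ • A (a i), h⟫ +
        ⟪‖A (a i)‖⁻¹ • A (a i), Matrix.toEuclideanLin M (‖A (a i)‖⁻¹ • A (a i))⟫ < 0) : False := by
  obtain ⟨H, hH⟩ : ∃ H : EuclideanSpace ℝ (Fin d) →L[ℝ] EuclideanSpace ℝ (Fin d),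
    H = LinearMap.toContinuousLinearMap (Matrix.toEuclideanLin M) := ⟨_, rfl⟩
  have hHv : ∀ v, H v = Matrix.toEuclideanLin M v := by
    intro v; rw [hH]; rfl
  -- determinant of the perturbed operator
  have hdetε : ∀ ε : ℝ, ((ContinuousLinearMap.id ℝ (EuclideanSpace ℝ (Fin d)) + ε • H).comp A).det =
      (1 + ε • M).det * A.det := by
    intro ε
    have h1 : (((ContinuousLinearMap.id ℝ (EuclideanSpace ℝ (Fin d)) + ε • H).comp A :
        EuclideanSpace ℝ (Fin d) →L[ℝ] EuclideanSpace ℝ (Fin d)) :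
        EuclideanSpace ℝ (Fin d) →ₗ[ℝ] EuclideanSpace ℝ (Fin d)) =
        (Matrix.toEuclideanLin (1 + ε • M)) ∘ₗ (A : EuclideanSpace ℝ (Fin d) →ₗ[ℝ]
          EuclideanSpace ℝ (Fin d)) := by
      ext v : 1
      have h2 : Matrix.toEuclideanLin (1 : Matrix (Fin d) (Fin d) ℝ) (A v) = A v := by
        rw [Matrix.toLpLin_apply, Matrix.one_mulVec]
      simp only [map_add, map_smul, LinearMap.comp_apply, LinearMap.add_apply,
        LinearMap.smul_apply]
      change A v + ε • H (A v) = _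
      rw [hHv]
      change _ = Matrix.toEuclideanLin (1 : Matrix (Fin d) (Fin d) ℝ) (A v) + _
      rw [h2]
      rfl
    rw [ContinuousLinearMap.det, h1, LinearMap.det_comp, Matrix.toEuclideanLin_eq_toLin_orthonormal,
      LinearMap.det_toLin]
  have hfeas : ∀ᶠ ε in 𝓝[>] (0 : ℝ), ∀ i,
      ⟪a i, o + ε • ContinuousLinearMap.adjoint A h⟫ +
        ‖((ContinuousLinearMap.id ℝ (EuclideanSpace ℝ (Fin d)) + ε • H).comp A) (a i)‖ ≤ b i := by
    rw [Filter.eventually_all]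
    intro i
    have hval : ∀ ε : ℝ, ((ContinuousLinearMap.id ℝ (EuclideanSpace ℝ (Fin d)) + ε • H).comp A) (a i)
        = A (a i) + ε • H (A (a i)) := by
      intro ε; rfl
    simp only [hval]
    by_cases hi : ⟪a i, o⟫ + ‖A (a i)‖ = b i
    · obtain ⟨hpos, hneg⟩ := hact i hi
      obtain ⟨l, hl⟩ : ∃ l, l = ‖A (a i)‖ := ⟨_, rfl⟩
      obtain ⟨u, hu⟩ : ∃ u, u = ‖A (a i)‖⁻¹ • A (a i) := ⟨_, rfl⟩
      rw [← hu, ← hHv] at hneg
      rw [← hl] at hpos hi
      have hAu : A (a i) = l • u := by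
        rw [hu, ← hl, smul_smul, mul_inv_cancel₀ hpos.ne', one_smul]
      have hun : ‖u‖ = 1 := by
        rw [hu, norm_smul, norm_inv, norm_norm, ← hl, inv_mul_cancel₀ hpos.ne']
      obtain ⟨κ, hκ⟩ : ∃ κ, κ = -(⟪u, h⟫ + ⟪u, H u⟫) := ⟨_, rfl⟩
      have hκ0 : 0 < κ := by rw [hκ]; linarith
      have h1 : ∀ᶠ ε in 𝓝 (0 : ℝ), ε * (‖H u‖ ^ 2 / 2) < κ := by
        have h2 : Tendsto (fun ε : ℝ => ε * (‖H u‖ ^ 2 / 2)) (𝓝 0) (𝓝 (0 * (‖H u‖ ^ 2 / 2))) :=
          (continuous_id.mul continuous_const).tendsto 0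
        rw [zero_mul] at h2
        exact h2.eventually (gt_mem_nhds hκ0)
      filter_upwards [nhdsWithin_le_nhds h1, self_mem_nhdsWithin] with ε h2 h3
      have h3' : 0 < ε := h3
      have h4 : ‖A (a i) + ε • H (A (a i))‖ ≤ l * (1 + ε * ⟪u, H u⟫ + ε ^ 2 * (‖H u‖ ^ 2 / 2)) := by
        have h5 : A (a i) + ε • H (A (a i)) = l • (u + ε • H u) := by
          rw [hAu, map_smul, smul_add, smul_comm]
        rw [h5, norm_smul, Real.norm_of_nonneg hpos.le]
        refine mul_le_mul_of_nonneg_left ?_ hpos.le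
        refine (norm_add_le_quad u (ε • H u) hun).trans (le_of_eq ?_)
        rw [inner_smul_right, norm_smul, Real.norm_of_nonneg h3'.le]
        ring
      have h6 : ⟪a i, o + ε • ContinuousLinearMap.adjoint A h⟫ = ⟪a i, o⟫ + ε * (l * ⟪u, h⟫) := by
        rw [inner_add_right, inner_smul_right, ContinuousLinearMap.adjoint_inner_right, hAu,
          real_inner_smul_left]
      rw [h6]
      have h7 : l * ε * (⟪u, h⟫ + ⟪u, H u⟫ + ε * (‖H u‖ ^ 2 / 2)) ≤ 0 := by
        refine mul_nonpos_of_nonneg_of_nonpos (by positivity) ?_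
        linarith
      nlinarith
    · have hlt : ⟪a i, o⟫ + ‖A (a i)‖ < b i := lt_of_le_of_ne (hA i) hi
      have hcont : Continuous fun ε : ℝ =>
          ⟪a i, o + ε • ContinuousLinearMap.adjoint A h⟫ + ‖A (a i) + ε • H (A (a i))‖ := by
        fun_prop
      have h2 := hcont.tendsto 0
      simp only [zero_smul, add_zero] at h2
      filter_upwards [nhdsWithin_le_nhds (h2.eventually (gt_mem_nhds hlt))] with ε h3 using h3.le
  obtain ⟨ε, h1, h2⟩ := (hfeas.and (det_gt_one M hM)).exists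
  have h3 := hmax _ _ h1
  rw [hdetε] at h3
  nlinarith

end

theorem john {d : ℕ} (hd : 0 < d) {I : Type} [Fintype I]
    (a : I → EuclideanSpace ℝ (Fin d)) (b : I → ℝ) (R : ℝ)
    (hbdd : ∀ x : EuclideanSpace ℝ (Fin d), (∀ i, ⟪a i, x⟫ ≤ b i) → ‖x‖ ≤ R)
    (x₀ : EuclideanSpace ℝ (Fin d)) (hint : ∀ i, ⟪a i, x₀⟫ < b i) :
    ∃ (o : EuclideanSpace ℝ (Fin d))
      (T : EuclideanSpace ℝ (Fin d) →L[ℝ] EuclideanSpace ℝ (Fin d))
      (S : Finset I) (J : JohnSys d S),
      Function.Surjective T ∧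
      (∀ ξ : EuclideanSpace ℝ (Fin d), ‖ξ‖ ≤ 1 → ∀ i, ⟪a i, o + T ξ⟫ ≤ b i) ∧
      (∀ (i : S) (ξ : EuclideanSpace ℝ (Fin d)), ⟪a i, o + T ξ⟫ ≤ b i → ⟪J.u i, ξ⟫ ≤ 1) := by
  classical
  obtain ⟨o, A, hA, hdet, hmax⟩ := exists_max hd a b R hbdd x₀ hint
  obtain ⟨S, hS⟩ : ∃ S : Finset I, S = Finset.univ.filter fun i => ⟪a i, o⟫ + ‖A (a i)‖ = b i :=
    ⟨_, rfl⟩
  have hmemS : ∀ i, i ∈ S ↔ ⟪a i, o⟫ + ‖A (a i)‖ = b i := by
    intro i
    rw [hS]
    simp
  have hSi : ∀ i : S, ⟪a i, o⟫ + ‖A (a i)‖ = b i := fun i => (hmemS i).1 i.2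
  -- bijectivity of `A`
  have hbij : Function.Bijective A := by
    have h1 : IsUnit (LinearMap.det (A : EuclideanSpace ℝ (Fin d) →ₗ[ℝ] EuclideanSpace ℝ (Fin d))) :=
      isUnit_iff_ne_zero.2 hdet.ne'
    have h2 : Function.Bijective (LinearEquiv.ofIsUnitDet
        (v := (EuclideanSpace.basisFun (Fin d) ℝ).toBasis)
        (v' := (EuclideanSpace.basisFun (Fin d) ℝ).toBasis)
        (f := (A : EuclideanSpace ℝ (Fin d) →ₗ[ℝ] EuclideanSpace ℝ (Fin d)))
        (by rw [LinearMap.det_toMatrix]; exact h1)) := LinearEquiv.bijective _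
    exact h2
  have hpos : ∀ i, ⟪a i, o⟫ + ‖A (a i)‖ = b i → 0 < ‖A (a i)‖ := by
    intro i hi
    rw [norm_pos_iff]
    intro h0
    have h1 : a i = 0 := hbij.1 (by rw [h0, map_zero])
    have h2 := hint i
    rw [h0, h1, norm_zero, inner_zero_left, add_zero] at hi
    rw [h1, inner_zero_left] at h2
    linarith
  obtain ⟨u, hu⟩ : ∃ u : I → EuclideanSpace ℝ (Fin d), u = fun i => ‖A (a i)‖⁻¹ • A (a i) :=
    ⟨_, rfl⟩
  have hui : ∀ i, u i = ‖A (a i)‖⁻¹ • A (a i) := fun i => by rw [hu]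
  have hun : ∀ i, ⟪a i, o⟫ + ‖A (a i)‖ = b i → ‖u i‖ = 1 := by
    intro i hi
    rw [hui, norm_smul, norm_inv, norm_norm, inv_mul_cancel₀ (hpos i hi).ne']
  obtain ⟨w, hw⟩ : ∃ w : S → EuclideanSpace ℝ (Fin d) × (Fin d → Fin d → ℝ),
    ∀ i, w i = (u i, fun j k => u i j * u i k) :=
    ⟨fun i => (u i, fun j k => u i j * u i k), fun i => rfl⟩
  obtain ⟨L, hL⟩ : ∃ L : (S → ℝ) →ₗ[ℝ] EuclideanSpace ℝ (Fin d) × (Fin d → Fin d → ℝ),
      ∀ c, L c = ∑ i, c i • w i := by
    refine ⟨∑ i, (LinearMap.proj i : (S → ℝ) →ₗ[ℝ] ℝ).smulRight (w i), fun c => ?_⟩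
    simp
  obtain ⟨P, hP⟩ : ∃ P : EuclideanSpace ℝ (Fin d) × (Fin d → Fin d → ℝ),
    P = (0, fun j k => if j = k then (1 / d : ℝ) else 0) := ⟨_, rfl⟩
  have hd' : (0 : ℝ) < d := by exact_mod_cast hd
  have hmem : P ∈ L '' stdSimplex ℝ S := by
    by_contra hno
    have hKc : Convex ℝ (L '' stdSimplex ℝ S) := (convex_stdSimplex ℝ S).linear_image L
    have hKcl : IsClosed (L '' stdSimplex ℝ S) :=
      ((isCompact_stdSimplex ℝ S).image L.continuous_of_finiteDimensional).isClosed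
    obtain ⟨f, r, hf1, hf2⟩ := geometric_hahn_banach_closed_point hKc hKcl hno
    obtain ⟨h, hh⟩ : ∃ h : EuclideanSpace ℝ (Fin d), ∀ x, ⟪h, x⟫ = f (x, 0) := by
      refine ⟨(InnerProductSpace.toDual ℝ (EuclideanSpace ℝ (Fin d))).symm
        (f.comp (ContinuousLinearMap.inl ℝ _ _)), fun x => ?_⟩
      rw [InnerProductSpace.toDual_symm_apply]
      rfl
    obtain ⟨F, hF⟩ : ∃ F : Fin d → Fin d → ℝ, F = fun j k =>
      f ((0 : EuclideanSpace ℝ (Fin d)), Pi.single j (Pi.single k 1)) := ⟨_, rfl⟩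
    have hfv : ∀ (x : EuclideanSpace ℝ (Fin d)) (X : Fin d → Fin d → ℝ),
        f (x, X) = ⟪h, x⟫ + ∑ j, ∑ k, F j k * X j k := by
      intro x X
      have h1 : (x, X) = (x, 0) + ∑ j, ∑ k,
          X j k • ((0 : EuclideanSpace ℝ (Fin d)), (Pi.single j (Pi.single k 1) :
            Fin d → Fin d → ℝ)) := by
        refine Prod.ext ?_ ?_
        · simp [Prod.fst_sum]
        · simp only [Prod.snd_add, Prod.snd_sum, Prod.smul_snd, zero_add]
          ext j k
          simp only [Finset.sum_apply, Pi.smul_apply, smul_eq_mul]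
          rw [Finset.sum_eq_single j, Finset.sum_eq_single k]
          · simp
          · intro k' _ hk'
            simp [Pi.single_apply, Ne.symm hk']
          · simp
          · intro j' _ hj'
            apply Finset.sum_eq_zero
            intro k' _
            simp [Pi.single_apply, Ne.symm hj']
          · simp
      rw [h1, map_add, map_sum, hh]
      congr 1
      refine Finset.sum_congr rfl fun j _ => ?_
      rw [map_sum]
      refine Finset.sum_congr rfl fun k _ => ?_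
      rw [map_smul, hF, smul_eq_mul, mul_comm]
    obtain ⟨M, hM⟩ : ∃ M : Matrix (Fin d) (Fin d) ℝ,
      M = Matrix.of fun j k => F j k - if j = k then r else 0 := ⟨_, rfl⟩
    have hMjk : ∀ j k, M j k = F j k - if j = k then r else 0 := by
      intro j k; rw [hM]; rfl
    have htr : 0 < M.trace := by
      have h1 : f P = (∑ j, F j j) / d := by
        rw [hP, hfv, inner_zero_right, zero_add, Finset.sum_div]
        refine Finset.sum_congr rfl fun j _ => ?_
        rw [Finset.sum_eq_single j]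
        · simp [div_eq_mul_inv]
        · intro k _ hk
          simp [Ne.symm hk]
        · simp
      have h2 : M.trace = (∑ j, F j j) - d * r := by
        rw [Matrix.trace]
        simp only [Matrix.diag, hMjk, if_true, Finset.sum_sub_distrib, Finset.sum_const,
          Finset.card_univ, Fintype.card_fin, nsmul_eq_mul]
      rw [h1, lt_div_iff₀ hd'] at hf2
      rw [h2]
      linarith
    refine no_improve a b x₀ hint o A hA hdet hmax h M htr fun i hi => ⟨hpos i hi, ?_⟩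
    rw [← hui, inner_toEuclideanLin]
    have hiS : i ∈ S := (hmemS i).2 hi
    have h1 : f (w ⟨i, hiS⟩) < r := by
      apply hf1
      refine ⟨Pi.single ⟨i, hiS⟩ 1, single_mem_stdSimplex ℝ _, ?_⟩
      rw [hL, Finset.sum_eq_single ⟨i, hiS⟩]
      · simp
      · intro j _ hj
        simp [Pi.single_apply, hj]
      · simp
    rw [hw, hfv] at h1
    have h2 : ∑ j, ∑ k, M j k * (u i j * u i k) =
        (∑ j, ∑ k, F j k * (u i j * u i k)) - r := by
      have h3 : ∑ j, u i j * u i j = 1 := by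
        have h4 : ⟪u i, u i⟫ = (1 : ℝ) := by
          rw [real_inner_self_eq_norm_sq, hun i hi, one_pow]
        rw [PiLp.inner_apply] at h4
        simpa [sq] using h4
      have h5 : ∑ j, ∑ k, (if j = k then r else 0) * (u i j * u i k) = r := by
        have : ∀ j, ∑ k, (if j = k then r else 0) * (u i j * u i k) = r * (u i j * u i j) := by
          intro j
          rw [Finset.sum_eq_single j]
          · simp
          · intro k _ hk
            simp [Ne.symm hk]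
          · simp
        simp only [this]
        rw [← Finset.mul_sum, h3, mul_one]
      simp only [hMjk, sub_mul, Finset.sum_sub_distrib]
      rw [h5]
    rw [h2, real_inner_comm]
    simp only at h1
    linarith
  obtain ⟨c, hc, hLc⟩ := hmem
  rw [hL, hP] at hLc
  have hcen : ∑ i, c i • u i = 0 := by
    have := congrArg Prod.fst hLc
    rw [Prod.fst_sum] at this
    simpa [hw] using this
  have hmat : ∀ j k, ∑ i, c i * (u i j * u i k) = if j = k then (1 / d : ℝ) else 0 := by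
    intro j k
    have := congrFun (congrFun (congrArg Prod.snd hLc) j) k
    rw [Prod.snd_sum] at this
    simpa [hw] using this
  refine ⟨o, ContinuousLinearMap.adjoint A, S,
    { u := fun i => u i
      c := c
      c_nonneg := hc.1
      c_sum := hc.2
      u_norm := fun i => hun i (hSi i)
      centred := hcen
      iso := ?_ }, ?_, ?_, ?_⟩
  · intro v
    have h1 : ∀ i : S, ⟪u i, v⟫ ^ 2 = ∑ j, ∑ k, (v j * v k) * (u i j * u i k) := by
      intro i
      rw [PiLp.inner_apply, sq, Finset.sum_mul_sum]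
      refine Finset.sum_congr rfl fun j _ => Finset.sum_congr rfl fun k _ => ?_
      simp only [RCLike.inner_apply, conj_trivial]
      ring
    have h2 : ∑ i : S, c i * ⟪u i, v⟫ ^ 2 = ∑ j, ∑ k, (v j * v k) * ∑ i : S, c i * (u i j * u i k) := by
      simp only [h1, Finset.mul_sum]
      rw [Finset.sum_comm]
      refine Finset.sum_congr rfl fun j _ => ?_
      rw [Finset.sum_comm]
      refine Finset.sum_congr rfl fun k _ => Finset.sum_congr rfl fun i _ => ?_
      ring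
    rw [h2]
    have h3 : ∀ j, ∑ k, (v j * v k) * ∑ i : S, c i * (u i j * u i k) = v j * v j * (1 / d) := by
      intro j
      simp only [hmat]
      rw [Finset.sum_eq_single j]
      · simp
      · intro k _ hk
        simp [Ne.symm hk]
      · simp
    simp only [h3]
    rw [← Finset.sum_mul]
    have h4 : ∑ j, v j * v j = ‖v‖ ^ 2 := by
      rw [← real_inner_self_eq_norm_sq, PiLp.inner_apply]
      simp [sq]
    rw [h4]
    ring
  · -- surjectivity
    have hinj : Function.Injective (ContinuousLinearMap.adjoint A) := by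
      rw [injective_iff_map_eq_zero]
      intro ξ hξ
      obtain ⟨y, hy⟩ := hbij.2 ξ
      have h1 : ⟪y, ContinuousLinearMap.adjoint A ξ⟫ = ⟪A y, ξ⟫ :=
        ContinuousLinearMap.adjoint_inner_right A y ξ
      rw [hξ, inner_zero_right, hy] at h1
      exact inner_self_eq_zero.1 h1.symm
    exact (LinearMap.injective_iff_surjective (f := ((ContinuousLinearMap.adjoint A :
      EuclideanSpace ℝ (Fin d) →L[ℝ] EuclideanSpace ℝ (Fin d)) :
      EuclideanSpace ℝ (Fin d) →ₗ[ℝ] EuclideanSpace ℝ (Fin d)))).1 hinj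
  · intro ξ hξ i
    rw [inner_add_right, ContinuousLinearMap.adjoint_inner_right]
    have h1 := hA i
    have h2 : ⟪A (a i), ξ⟫ ≤ ‖A (a i)‖ * ‖ξ‖ := real_inner_le_norm _ _
    have h3 : ‖A (a i)‖ * ‖ξ‖ ≤ ‖A (a i)‖ := by
      nlinarith [norm_nonneg (A (a i))]
    linarith
  · intro i ξ h1
    rw [inner_add_right, ContinuousLinearMap.adjoint_inner_right, ← hSi i] at h1
    have h2 := hpos i (hSi i)
    change ⟪u i, ξ⟫ ≤ 1
    rw [hui, real_inner_smul_left, inv_mul_le_iff₀ h2]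
    linarith

end Pool.Agent.Helper88.QH
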